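import Mathlib
import Pool.Agent.Y666.SP.Stm2

/-!
# SP2-LOW: the lower cut of a two-stage piece (`S_LOW` from `S_KLEAST`)
-/

set_option autoImplicit false

open Cardinal OrderDual

namespace Pool.Agent.Y415.SP
open Pool.Agent.Y666.SP

section gen
variable {β : Type} [PartialOrder β] {κ : Cardinal.{0}} {T E : Set β}

theorem cd_mono {A B : Set β} (h : A ⊆ B) : cd A ≤ cd B := Cardinal.mk_le_mk_of_subset h

/-- Restriction of a germ of `T` to a subset `E` containing all its elements below `p`. -/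
theorem restr (hET : E ⊆ T) (F : KGerm κ T) (p : β) (hpF : p ∈ F.carrier)
    (hp : ∀ z ∈ F.carrier, z ≤ p → z ∈ E) :
    ∃ F' : KGerm κ E, F'.carrier = F.carrier ∩ E := by
  have hdir : ∀ x ∈ F.carrier, ∀ y ∈ F.carrier, ∃ z ∈ F.carrier, z ∈ E ∧ z ≤ x ∧ z ≤ y ∧ z ≤ p := by
    intro x hx y hy
    obtain ⟨z, hz, hzx, hzy⟩ := F.dir x hx y hy
    obtain ⟨z', hz', hzz, hzp⟩ := F.dir z hz p hpF
    exact ⟨z', hz', hp z' hz' hzp, hzz.trans hzx, hzz.trans hzy, hzp⟩
  refine ⟨{ carrier := F.carrier ∩ E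
            sub := fun x hx => hx.2
            nonempty := ⟨p, hpF, hp p hpF le_rfl⟩
            up := fun x hx y hy hxy => ⟨F.up x hx.1 y (hET hy) hxy, hy⟩
            dir := ?_
            large := ?_ }, rfl⟩
  · intro x hx y hy
    obtain ⟨z, hz, hzE, hzx, hzy, -⟩ := hdir x hx.1 y hy.1
    exact ⟨z, ⟨hz, hzE⟩, hzx, hzy⟩
  · intro x hx
    obtain ⟨z, hz, hzE, hzx, -, hzp⟩ := hdir x hx.1 x hx.1
    refine (F.large z hz).trans (cd_mono ?_)
    rintro y ⟨hy, hyz⟩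
    exact ⟨⟨hy, hp y hy (hyz.trans hzp)⟩, hyz.trans hzx⟩

/-- Extension of a germ of `E` to a larger set `T`. -/
theorem extd (hET : E ⊆ T) (g : KGerm κ E) :
    ∃ F : KGerm κ T, F.carrier = {y | y ∈ T ∧ ∃ q ∈ g.carrier, q ≤ y} := by
  refine ⟨{ carrier := {y | y ∈ T ∧ ∃ q ∈ g.carrier, q ≤ y}
            sub := fun x hx => hx.1
            nonempty := ?_
            up := ?_
            dir := ?_
            large := ?_ }, rfl⟩
  · obtain ⟨x, hx⟩ := g.nonempty
    exact ⟨x, hET (g.sub hx), x, hx, le_rfl⟩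
  · rintro x ⟨hx, q, hq, hqx⟩ y hy hxy
    exact ⟨hy, q, hq, hqx.trans hxy⟩
  · rintro x ⟨hx, q, hq, hqx⟩ y ⟨hy, r, hr, hry⟩
    obtain ⟨z, hz, hzq, hzr⟩ := g.dir q hq r hr
    exact ⟨z, ⟨hET (g.sub hz), z, hz, le_rfl⟩, hzq.trans hqx, hzr.trans hry⟩
  · rintro x ⟨hx, q, hq, hqx⟩
    refine (g.large q hq).trans (cd_mono ?_)
    rintro y ⟨hy, hyq⟩
    exact ⟨⟨hET (g.sub hy), y, hy, le_rfl⟩, hyq.trans hqx⟩

/-- Change of the cardinal. -/
theorem lowerK {κ' : Cardinal.{0}} (h : κ ≤ κ') (F : KGerm κ' T) :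
    ∃ F' : KGerm κ T, F'.carrier = F.carrier :=
  ⟨{ carrier := F.carrier
     sub := F.sub
     nonempty := F.nonempty
     up := F.up
     dir := F.dir
     large := fun x hx => h.trans (F.large x hx) }, rfl⟩

theorem sub_of_kll {F G : KGerm κ E} (h : kll F G) : G.carrier ⊆ F.carrier := by
  obtain ⟨p, hp, hpq⟩ := h
  intro q hq
  exact F.up p hp q (G.sub hq) (hpq q hq).le

theorem inS1 {G : Set (KGerm κ E)} {x₀ : β} (hx : x₀ ∈ KBB G) {y : β} (hy : y ∈ E)
    (hyx : y ≤ x₀) (h : ∀ g ∈ G, x₀ ∈ g.carrier → y ∈ g.carrier) : y ∈ KPc G x₀ := by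
  refine ⟨⟨hy, fun g hg => ?_⟩, fun g hg => ⟨fun h' => g.up y h' x₀ hx.1 hyx, h g hg⟩⟩
  rcases hx.2 g hg with h1 | h1
  · exact Or.inl (h g hg h1)
  · exact Or.inr fun q hq => hyx.trans_lt (h1 q hq)

end gen

section main
variable {α : Type} [PartialOrder α] {κ : Cardinal.{0}} {T UE DE E : Set α} {x₀ : α}

/-- An element of the lower set is in no ideal germ of `T` below `x₀`. -/
theorem idl (hE : E = UE ∩ DE) (hUT : UE ⊆ T) (hup : ∀ x ∈ UE, ∀ y ∈ T, x ≤ y → y ∈ UE)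
    (hdn : ∀ x ∈ DE, ∀ y ∈ T, y ≤ x → y ∈ DE) (hx₀ : x₀ ∈ E)
    {S₁ S : Set α} {G : Set (KGerm κ E)} {G' : Set (KGerm κ (dS S₁))}
    (hd : StpData κ x₀ E S₁ S G G') (J' : KGerm κ (dS T)) (hJ : ∀ j ∈ J'.carrier, ofDual j < x₀)
    {p : α} (hpJ : toDual p ∈ J'.carrier) (hp : p ∈ LwSet x₀ UE G G') : False := by
  have hx₀' : x₀ ∈ UE ∧ x₀ ∈ DE := by rw [hE] at hx₀; exact hx₀
  have hET : E ⊆ T := by rw [hE]; exact fun x hx => hUT hx.1
  have hSE : S₁ ⊆ E := by rw [hd.eq₁]; exact fun x hx => hx.1.1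
  have key : ∀ z : αᵒᵈ, z ∈ J'.carrier → z ≤ toDual p → z ∈ dS S₁ := by
    intro z hz hzp
    have hzT : ofDual z ∈ T := J'.sub hz
    have hpz : p ≤ ofDual z := hzp
    have hzU : ofDual z ∈ UE := hup p hp.1 _ hzT hpz
    have hzD : ofDual z ∈ DE := hdn x₀ hx₀'.2 _ hzT (hJ z hz).le
    have hzE : ofDual z ∈ E := by rw [hE]; exact ⟨hzU, hzD⟩
    change ofDual z ∈ S₁
    rw [hd.eq₁]
    refine inS1 hd.memG hzE (hJ z hz).le fun g hg hxg => ?_
    obtain ⟨q, hq, hqp⟩ := hp.2.1 g hg hxg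
    exact g.up q hq _ hzE (hqp.trans hpz)
  have hsub : dS S₁ ⊆ dS T := fun x hx => hET (hSE hx)
  obtain ⟨J'', hJ''⟩ := restr hsub J' (toDual p) hpJ key
  refine hd.selG'.mx J'' fun J hJG => ?_
  rcases hd.memG'.2 J hJG with h1 | h1
  · left
    refine ⟨toDual x₀, h1, fun q hq => ?_⟩
    rw [hJ''] at hq
    exact toDual_lt.mpr (hJ q hq.1)
  · by_cases h2 : toDual x₀ ∈ J.carrier
    · left
      refine ⟨toDual x₀, h2, fun q hq => ?_⟩
      rw [hJ''] at hq
      exact toDual_lt.mpr (hJ q hq.1)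
    · right
      refine ⟨toDual p, ?_, fun q hq => ?_⟩
      · rw [hJ'']; exact ⟨hpJ, key _ hpJ le_rfl⟩
      · exact toDual_lt.mpr (hp.2.2 J hJG h2 q hq)

/-- No filter germ of `T` contains `x₀` and is above everything. -/
theorem flt (hE : E = UE ∩ DE) (hUT : UE ⊆ T) (hup : ∀ x ∈ UE, ∀ y ∈ T, x ≤ y → y ∈ UE)
    (hdn : ∀ x ∈ DE, ∀ y ∈ T, y ≤ x → y ∈ DE) (hx₀ : x₀ ∈ E)
    {G : Set (KGerm κ E)} (hG : KSel G) (hxG : x₀ ∈ KBB G)
    (F' : KGerm κ T) (hF : x₀ ∈ F'.carrier)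
    {p : α} (hp : p ∈ UE) (hpF : ∀ r ∈ F'.carrier, p < r)
    (hh : ∀ h ∈ G, x₀ ∈ h.carrier → ∃ q ∈ h.carrier, ∀ r ∈ F'.carrier, q < r) : False := by
  have hx₀' : x₀ ∈ UE ∧ x₀ ∈ DE := by rw [hE] at hx₀; exact hx₀
  have hET : E ⊆ T := by rw [hE]; exact fun x hx => hUT hx.1
  have key : ∀ z ∈ F'.carrier, z ≤ x₀ → z ∈ E := by
    intro z hz hzx
    have hzT := F'.sub hz
    rw [hE]
    exact ⟨hup p hp z hzT (hpF z hz).le, hdn x₀ hx₀'.2 z hzT hzx⟩
  obtain ⟨F'', hF''⟩ := restr hET F' x₀ hF key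
  refine hG.mx F'' fun h hhG => ?_
  by_cases h1 : x₀ ∈ h.carrier
  · left
    obtain ⟨q, hq, hqr⟩ := hh h hhG h1
    refine ⟨q, hq, fun r hr => ?_⟩
    rw [hF''] at hr
    exact hqr r hr.1
  · right
    refine ⟨x₀, ?_, fun q hq => ?_⟩
    · rw [hF'']; exact ⟨hF, hx₀⟩
    · rcases hxG.2 h hhG with h2 | h2
      · exact absurd h2 h1
      · exact h2 q hq

end main

theorem t_low (hleast : S_KLEAST) : S_LOW := by
  intro α _ w hw κ κ' hκ hκκ' T UE DE E x₀ hx₀ hE hUT hDT hup hdn hcut S₁ S G G' hd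
  have hx₀' : x₀ ∈ UE ∧ x₀ ∈ DE := by rw [hE] at hx₀; exact hx₀
  have hET : E ⊆ T := by rw [hE]; exact fun x hx => hUT hx.1
  have hEU : E ⊆ UE := by rw [hE]; exact fun x hx => hx.1
  have hED : E ⊆ DE := by rw [hE]; exact fun x hx => hx.2
  have hSE : S₁ ⊆ E := by rw [hd.eq₁]; exact fun x hx => hx.1.1
  by_cases hA : ∃ u ∈ G', toDual x₀ ∉ u.carrier
  · -- Case A
    obtain ⟨u, hu, hxu, hmin⟩ := hleast αᵒᵈ κ (dS S₁) G' hd.selG' (toDual x₀) hd.memG' hA
    have hsub : dS S₁ ⊆ dS T := fun x hx => hET (hSE hx)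
    obtain ⟨JT, hJT⟩ := extd hsub u
    have hux : ∀ j ∈ u.carrier, ofDual j < x₀ := by
      intro j hj
      rcases hd.memG'.2 u hu with h1 | h1
      · exact absurd h1 hxu
      · exact toDual_lt.mp (h1 j hj)
    have huJT : ∀ j ∈ u.carrier, j ∈ JT.carrier := by
      intro j hj
      rw [hJT]
      exact ⟨hsub (u.sub hj), j, hj, le_rfl⟩
    have hJu : ∀ J ∈ G', toDual x₀ ∉ J.carrier → J.carrier ⊆ u.carrier := by
      intro J hJG hxJ
      rcases hmin J hJG hxJ with h1 | h1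
      · rw [h1]
      · exact sub_of_kll h1
    have hLw : ∀ y ∈ T, (∀ j ∈ JT.carrier, ofDual j < y) → y ∈ LwSet x₀ UE G G' := by
      intro y hy hjy
      obtain ⟨j, hj⟩ := u.nonempty
      have hjS : ofDual j ∈ S₁ := u.sub hj
      have hjE : ofDual j ∈ E := hSE hjS
      have hjlt : ofDual j < y := hjy j (huJT j hj)
      refine ⟨hup _ (hEU hjE) y hy hjlt.le, fun g hg hxg => ?_, fun J hJG hxJ i hi => ?_⟩
      · rw [hd.eq₁] at hjS
        exact ⟨ofDual j, (hjS.2 g hg).mpr hxg, hjlt.le⟩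
      · exact hjy i (huJT i (hJu J hJG hxJ hi))
    right; right
    refine ⟨JT, ⟨?_, ?_⟩, ?_⟩
    · intro j hj
      rw [hJT] at hj
      obtain ⟨_, q, hq, hqj⟩ := hj
      exact lt_of_le_of_lt hqj (hux q hq)
    · rintro J' hJ' ⟨p, hp, hpJ⟩
      refine idl hE hUT hup hdn hx₀ hd J' hJ' (p := ofDual p) hp ?_
      exact hLw (ofDual p) (J'.sub hp) fun j hj => hpJ j hj
    · ext y
      constructor
      · intro hy
        refine ⟨hUT hy.1, fun j hj => ?_⟩
        rw [hJT] at hj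
        obtain ⟨_, q, hq, hqj⟩ := hj
        exact lt_of_le_of_lt hqj (hy.2.2 u hu hxu q hq)
      · rintro ⟨hy, hjy⟩
        exact hLw y hy hjy
  · have hall : ∀ J ∈ G', toDual x₀ ∈ J.carrier := by
      intro J hJ
      by_contra h
      exact hA ⟨J, hJ, h⟩
    by_cases hB : ∃ g ∈ G, x₀ ∈ g.carrier
    · by_cases hB1 : ∃ g ∈ G, x₀ ∈ g.carrier ∧ ∀ h ∈ G, x₀ ∈ h.carrier → h = g ∨ kll h g
      · -- Case B1
        obtain ⟨g, hg, hxg, hmax⟩ := hB1
        obtain ⟨F, hF⟩ := extd hET g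
        right; left
        refine ⟨F, ⟨?_, ?_⟩, ?_⟩
        · rw [hF]; exact ⟨hET hx₀, x₀, hxg, le_rfl⟩
        · rintro F' hxF' ⟨p, hp, hpF⟩
          rw [hF] at hp
          obtain ⟨hpT, q, hq, hqp⟩ := hp
          have hqF : ∀ r ∈ F'.carrier, q < r := fun r hr => hqp.trans_lt (hpF r hr)
          refine flt hE hUT hup hdn hx₀ hd.selG hd.memG F' hxF' (hEU (g.sub hq)) hqF ?_
          intro h hh hxh
          rcases hmax h hh hxh with h1 | ⟨p', hp', hpg⟩
          · rw [h1]; exact ⟨q, hq, hqF⟩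
          · exact ⟨p', hp', fun r hr => (hpg q hq).trans (hqF r hr)⟩
        · rw [hF]
          ext y
          constructor
          · intro hy
            exact ⟨hUT hy.1, hy.2.1 g hg hxg⟩
          · rintro ⟨hy, q, hq, hqy⟩
            refine ⟨hup q (hEU (g.sub hq)) y hy hqy, fun h hh hxh => ?_, fun J hJ hxJ => ?_⟩
            · rcases hmax h hh hxh with h1 | ⟨p', hp', hpg⟩
              · rw [h1]; exact ⟨q, hq, hqy⟩
              · exact ⟨p', hp', (hpg q hq).le.trans hqy⟩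
            · exact absurd (hall J hJ) hxJ
      · -- Case B2
        have hnext : ∀ g ∈ G, x₀ ∈ g.carrier → ∃ h ∈ G, x₀ ∈ h.carrier ∧ kll g h := by
          intro g hg hxg
          by_contra hcon
          refine hB1 ⟨g, hg, hxg, fun h hh hxh => ?_⟩
          rcases hd.selG.ch h hh g hg with h1 | h1 | h1
          · exact Or.inl h1
          · exact Or.inr h1
          · exact absurd ⟨h, hh, hxh, h1⟩ hcon
        -- the ideal germ
        have hJL : ∃ JL : KGerm κ (dS T), JL.carrier =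
            {y | ofDual y ∈ T ∧ ∃ g ∈ G, x₀ ∈ g.carrier ∧ ∀ q ∈ g.carrier, ofDual y < q} := by
          refine ⟨{ carrier := {y | ofDual y ∈ T ∧ ∃ g ∈ G, x₀ ∈ g.carrier ∧
                      ∀ q ∈ g.carrier, ofDual y < q}
                    sub := fun x hx => hx.1
                    nonempty := ?_
                    up := ?_
                    dir := ?_
                    large := ?_ }, rfl⟩
          · obtain ⟨g, hg, hxg⟩ := hB
            obtain ⟨h, hh, hxh, p, hp, hpq⟩ := hnext g hg hxg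
            exact ⟨toDual p, hET (g.sub hp), h, hh, hxh, hpq⟩
          · rintro x ⟨hx, g, hg, hxg, hlt⟩ y hy hxy
            exact ⟨hy, g, hg, hxg, fun q hq => lt_of_le_of_lt hxy (hlt q hq)⟩
          · rintro x ⟨hx, g, hg, hxg, hlt⟩ y ⟨hy, g', hg', hxg', hlt'⟩
            have hcom : ∃ h ∈ G, x₀ ∈ h.carrier ∧ (∀ q ∈ h.carrier, ofDual x < q) ∧
                ∀ q ∈ h.carrier, ofDual y < q := by
              rcases hd.selG.ch g hg g' hg' with h1 | h1 | h1
              · subst h1; exact ⟨g, hg, hxg, hlt, hlt'⟩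
              · exact ⟨g', hg', hxg', fun q hq => hlt q (sub_of_kll h1 hq), hlt'⟩
              · exact ⟨g, hg, hxg, hlt, fun q hq => hlt' q (sub_of_kll h1 hq)⟩
            obtain ⟨h, hh, hxh, h1, h2⟩ := hcom
            obtain ⟨h', hh', hxh', p, hp, hpq⟩ := hnext h hh hxh
            exact ⟨toDual p, ⟨hET (h.sub hp), h', hh', hxh', hpq⟩, (h1 p hp).le, (h2 p hp).le⟩
          · rintro x ⟨hx, g, hg, hxg, hlt⟩
            obtain ⟨h, hh, hxh, p, hp, hpq⟩ := hnext g hg hxg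
            refine (g.large p hp).trans ?_
            refine cd_mono (β := α) ?_
            rintro y ⟨hy, hyp⟩
            exact ⟨⟨hET (g.sub hy), h, hh, hxh, fun q hq => lt_of_le_of_lt hyp (hpq q hq)⟩,
              (hlt y hy).le⟩
        obtain ⟨JL, hJLc⟩ := hJL
        have hmem : ∀ g ∈ G, x₀ ∈ g.carrier → ∃ q ∈ g.carrier, toDual q ∈ JL.carrier := by
          intro g hg hxg
          obtain ⟨h, hh, hxh, p, hp, hpq⟩ := hnext g hg hxg
          refine ⟨p, hp, ?_⟩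
          rw [hJLc]
          exact ⟨hET (g.sub hp), h, hh, hxh, hpq⟩
        have hLw : ∀ y ∈ T, (∀ j ∈ JL.carrier, ofDual j < y) → y ∈ LwSet x₀ UE G G' := by
          intro y hy hjy
          refine ⟨?_, fun g hg hxg => ?_, fun J hJ hxJ => ?_⟩
          · obtain ⟨g, hg, hxg⟩ := hB
            obtain ⟨q, hq, hqJ⟩ := hmem g hg hxg
            exact hup q (hEU (g.sub hq)) y hy (hjy _ hqJ).le
          · obtain ⟨q, hq, hqJ⟩ := hmem g hg hxg
            exact ⟨q, hq, (hjy _ hqJ).le⟩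
          · exact absurd (hall J hJ) hxJ
        right; right
        refine ⟨JL, ⟨?_, ?_⟩, ?_⟩
        · intro j hj
          rw [hJLc] at hj
          obtain ⟨_, g, hg, hxg, hlt⟩ := hj
          exact hlt x₀ hxg
        · rintro J' hJ' ⟨p, hp, hpJ⟩
          refine idl hE hUT hup hdn hx₀ hd J' hJ' (p := ofDual p) hp ?_
          exact hLw (ofDual p) (J'.sub hp) fun j hj => hpJ j hj
        · ext y
          constructor
          · intro hy
            refine ⟨hUT hy.1, fun j hj => ?_⟩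
            rw [hJLc] at hj
            obtain ⟨_, g, hg, hxg, hlt⟩ := hj
            obtain ⟨q, hq, hqy⟩ := hy.2.1 g hg hxg
            exact (hlt q hq).trans_le hqy
          · rintro ⟨hy, hjy⟩
            exact hLw y hy hjy
    · -- Case C
      have hno : ∀ g ∈ G, x₀ ∉ g.carrier := fun g hg h => hB ⟨g, hg, h⟩
      have hLw : LwSet x₀ UE G G' = UE := by
        ext y
        constructor
        · exact fun hy => hy.1
        · exact fun hy => ⟨hy, fun g hg hxg => absurd hxg (hno g hg),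
            fun J hJ hxJ => absurd (hall J hJ) hxJ⟩
      rw [hLw]
      rcases hcut with h1 | ⟨F, hF, hU⟩ | ⟨J, hJ, hU⟩
      · exact Or.inl h1
      · right; left
        obtain ⟨Fk, hFk⟩ := lowerK hκκ' F
        refine ⟨Fk, ⟨by rw [hFk]; exact hF.1, ?_⟩, by rw [hFk]; exact hU⟩
        rintro F' hxF' ⟨p, hp, hpF⟩
        rw [hFk, ← hU] at hp
        exact flt hE hUT hup hdn hx₀ hd.selG hd.memG F' hxF' hp hpF
          fun h hh hxh => absurd hxh (hno h hh)
      · right; right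
        obtain ⟨Jk, hJk⟩ := lowerK hκκ' J
        refine ⟨Jk, ⟨by rw [hJk]; exact hJ.1, ?_⟩, by rw [hJk]; exact hU⟩
        rintro J' hJ' ⟨p, hp, hpJ⟩
        refine idl hE hUT hup hdn hx₀ hd J' hJ' (p := ofDual p) hp ?_
        rw [hLw, hU]
        refine ⟨J'.sub hp, fun j hj => ?_⟩
        exact hpJ j (by rw [hJk]; exact hj)

end Pool.Agent.Y415.SP
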